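import Mathlib

/-!
Mertens' first theorem in the weak form `∑_{d ≤ x} Λ(d)/d = log x + O(1)`,
and its version for primes.
-/

open Finset Real
open scoped ArithmeticFunction.vonMangoldt ArithmeticFunction.zeta

namespace Pool.Agent.Lib.H62

/-- `∑_{d ≤ N} Λ(d) ⌊N/d⌋ = log N!`. -/
theorem sum_vonMangoldt_floor (N : ℕ) :
    ∑ d ∈ Ioc 0 N, (Λ d : ℝ) * ((N / d : ℕ) : ℝ) = Real.log (Nat.factorial N) := by
  have h := ArithmeticFunction.sum_Ioc_mul_zeta_eq_sum (R := ℝ) ArithmeticFunction.vonMangoldt N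
  rw [← h]
  rw [ArithmeticFunction.vonMangoldt_mul_zeta]
  simp only [ArithmeticFunction.log_apply]
  induction N with
  | zero => simp
  | succ n ih =>
    rw [← Finset.insert_Ioc_right_eq_Ioc_add_one (Nat.zero_le n), Finset.sum_insert (by simp),
      Nat.factorial_succ, Nat.cast_mul, Real.log_mul (by positivity) (by positivity)]
    congr 1
    exact ih (by
      have := ArithmeticFunction.sum_Ioc_mul_zeta_eq_sum (R := ℝ) ArithmeticFunction.vonMangoldt n
      exact this)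

theorem log_factorial_le (N : ℕ) : Real.log (Nat.factorial N) ≤ N * Real.log N := by
  have h : ((Nat.factorial N : ℕ) : ℝ) ≤ (N : ℝ) ^ N := by
    exact_mod_cast Nat.factorial_le_pow N
  have := Real.log_le_log (by positivity) h
  rwa [Real.log_pow] at this

theorem le_log_factorial (N : ℕ) (hN : 1 ≤ N) :
    N * Real.log N - N ≤ Real.log (Nat.factorial N) := by
  have h := Real.pow_div_factorial_le_exp (N : ℝ) (by positivity) N
  have hN' : (0 : ℝ) < N := by exact_mod_cast hN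
  have h2 := Real.log_le_log (by positivity) h
  rw [Real.log_div (by positivity) (by positivity), Real.log_pow, Real.log_exp] at h2
  linarith

/-- Lower bound in Mertens' theorem for natural numbers. -/
theorem mertens_lower_nat (N : ℕ) (hN : 1 ≤ N) :
    Real.log N - 1 ≤ ∑ d ∈ Ioc 0 N, (Λ d : ℝ) / d := by
  have hN' : (0 : ℝ) < N := by exact_mod_cast hN
  have h1 := le_log_factorial N hN
  rw [← sum_vonMangoldt_floor] at h1
  have h2 : ∑ d ∈ Ioc 0 N, (Λ d : ℝ) * ((N / d : ℕ) : ℝ) ≤ N * ∑ d ∈ Ioc 0 N, (Λ d : ℝ) / d := by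
    rw [Finset.mul_sum]
    apply Finset.sum_le_sum
    intro d hd
    have hd' : (0 : ℝ) < d := by
      have := (Finset.mem_Ioc.mp hd).1
      exact_mod_cast this
    have h3 : ((N / d : ℕ) : ℝ) ≤ (N : ℝ) / d := Nat.cast_div_le
    have h4 : (0 : ℝ) ≤ Λ d := ArithmeticFunction.vonMangoldt_nonneg
    calc (Λ d : ℝ) * ((N / d : ℕ) : ℝ) ≤ Λ d * ((N : ℝ) / d) := by gcongr
      _ = N * (Λ d / d) := by ring
  have h5 : N * (Real.log N - 1) ≤ N * ∑ d ∈ Ioc 0 N, (Λ d : ℝ) / d := by linarith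
  exact le_of_mul_le_mul_left h5 hN'

/-- Upper bound in Mertens' theorem for natural numbers. -/
theorem mertens_upper_nat (N : ℕ) (hN : 1 ≤ N) :
    ∑ d ∈ Ioc 0 N, (Λ d : ℝ) / d ≤ Real.log N + (Real.log 4 + 4) := by
  have hN' : (0 : ℝ) < N := by exact_mod_cast hN
  have h1 := log_factorial_le N
  rw [← sum_vonMangoldt_floor] at h1
  have hpsi : ∑ d ∈ Ioc 0 N, (Λ d : ℝ) ≤ (Real.log 4 + 4) * N := by
    have := Chebyshev.psi_le_const_mul_self (x := (N : ℝ)) hN'.le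
    simpa [Chebyshev.psi] using this
  have h2 : N * ∑ d ∈ Ioc 0 N, (Λ d : ℝ) / d ≤
      ∑ d ∈ Ioc 0 N, (Λ d : ℝ) * ((N / d : ℕ) : ℝ) + ∑ d ∈ Ioc 0 N, (Λ d : ℝ) := by
    rw [Finset.mul_sum, ← Finset.sum_add_distrib]
    apply Finset.sum_le_sum
    intro d hd
    have hd0 : 0 < d := (Finset.mem_Ioc.mp hd).1
    have hd' : (0 : ℝ) < d := by exact_mod_cast hd0
    have h3 : (N : ℝ) / d ≤ ((N / d : ℕ) : ℝ) + 1 := by
      rw [div_le_iff₀ hd']
      have := Nat.lt_div_mul_add (a := N) hd0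
      have h6 : (N : ℝ) < (N / d : ℕ) * d + d := by exact_mod_cast this
      nlinarith
    have h4 : (0 : ℝ) ≤ Λ d := ArithmeticFunction.vonMangoldt_nonneg
    calc (N : ℝ) * (Λ d / d) = Λ d * ((N : ℝ) / d) := by ring
      _ ≤ Λ d * (((N / d : ℕ) : ℝ) + 1) := by gcongr
      _ = _ := by ring
  have h5 : N * ∑ d ∈ Ioc 0 N, (Λ d : ℝ) / d ≤ N * (Real.log N + (Real.log 4 + 4)) := by
    linarith
  exact le_of_mul_le_mul_left h5 hN'

theorem log_four_add_four_le : Real.log 4 + 4 ≤ 6 := by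
  have : Real.log 4 = 2 * Real.log 2 := by
    rw [show (4 : ℝ) = 2 ^ 2 by norm_num, Real.log_pow]; norm_num
  rw [this]
  have := Real.log_two_lt_d9
  linarith

/-- Mertens' theorem: `|∑_{d ≤ x} Λ(d)/d - log x| ≤ 6` for real `x ≥ 1`. -/
theorem mertens (x : ℝ) (hx : 1 ≤ x) :
    |∑ d ∈ Ioc 0 ⌊x⌋₊, (Λ d : ℝ) / d - Real.log x| ≤ 6 := by
  have hN : 1 ≤ ⌊x⌋₊ := (Nat.one_le_floor_iff x).mpr hx
  have hN' : (0 : ℝ) < ⌊x⌋₊ := by exact_mod_cast hN
  have h1 := mertens_lower_nat _ hN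
  have h2 := mertens_upper_nat _ hN
  have h3 := log_four_add_four_le
  have h4 : Real.log ⌊x⌋₊ ≤ Real.log x := Real.log_le_log hN' (Nat.floor_le (by linarith))
  have h5 : Real.log x ≤ Real.log ⌊x⌋₊ + Real.log 2 := by
    rw [← Real.log_mul (by positivity) (by norm_num)]
    apply Real.log_le_log (by linarith)
    have h6 := Nat.lt_floor_add_one x
    have h7 : (1 : ℝ) ≤ ⌊x⌋₊ := by exact_mod_cast hN
    linarith
  have h8 := Real.log_two_lt_d9
  rw [abs_le]
  constructor <;> linarith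

end Pool.Agent.Lib.H62
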