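import Pool.Agent.Lib.H62.Mertens

/-!
Mertens' first theorem for primes: `∑_{p ≤ x} log p / p = log x + O(1)`.
-/

open Finset Real
open scoped ArithmeticFunction.vonMangoldt ArithmeticFunction.zeta

namespace Pool.Agent.Lib.H62

theorem log_factorial_le_sum_primes (N : ℕ) :
    Real.log (Nat.factorial N) ≤ N * ∑ p ∈ (Ioc 0 N).filter Nat.Prime, Real.log p / ((p : ℝ) - 1) := by
  rw [Real.log_nat_eq_sum_factorization, Finsupp.sum, Finset.mul_sum]
  have hsub : (Nat.factorial N).factorization.support ⊆ (Ioc 0 N).filter Nat.Prime := by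
    intro p hp
    rw [Nat.support_factorization] at hp
    have hp1 := Nat.prime_of_mem_primeFactors hp
    have hp2 := Nat.dvd_of_mem_primeFactors hp
    have hp3 := (hp1.dvd_factorial).mp hp2
    simp [hp1, hp3, hp1.pos]
  calc ∑ p ∈ (Nat.factorial N).factorization.support,
        ((Nat.factorial N).factorization p : ℝ) * Real.log p
      ≤ ∑ p ∈ (Nat.factorial N).factorization.support, N * (Real.log p / ((p : ℝ) - 1)) := by
        apply Finset.sum_le_sum
        intro p hp
        rw [Nat.support_factorization] at hp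
        have hp1 := Nat.prime_of_mem_primeFactors hp
        have : Fact p.Prime := ⟨hp1⟩
        have h1 := sub_one_mul_padicValNat_factorial (p := p) N
        have h2 : (p - 1) * (Nat.factorial N).factorization p ≤ N := by
          rw [Nat.factorization_def _ hp1, h1]
          exact Nat.sub_le _ _
        have hp2 : (1 : ℝ) < p := by exact_mod_cast hp1.one_lt
        have h3 : ((p : ℝ) - 1) * ((Nat.factorial N).factorization p : ℝ) ≤ N := by
          have h4 : (((p - 1) * (Nat.factorial N).factorization p : ℕ) : ℝ) ≤ N := by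
            exact_mod_cast h2
          rwa [Nat.cast_mul, Nat.cast_sub hp1.one_lt.le, Nat.cast_one] at h4
        have hlog : 0 ≤ Real.log p := Real.log_nonneg hp2.le
        have h5 : ((Nat.factorial N).factorization p : ℝ) ≤ N / ((p : ℝ) - 1) := by
          rw [le_div_iff₀ (by linarith)]; linarith
        calc ((Nat.factorial N).factorization p : ℝ) * Real.log p
            ≤ (N / ((p : ℝ) - 1)) * Real.log p := by gcongr
          _ = _ := by ring
    _ ≤ ∑ p ∈ (Ioc 0 N).filter Nat.Prime, N * (Real.log p / ((p : ℝ) - 1)) := by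
        apply Finset.sum_le_sum_of_subset_of_nonneg hsub
        intro p hp _
        have hp1 := (Finset.mem_filter.mp hp).2
        have hp2 : (1 : ℝ) < p := by exact_mod_cast hp1.one_lt
        have hlog : 0 ≤ Real.log p := Real.log_nonneg hp2.le
        have : (0 : ℝ) < (p : ℝ) - 1 := by linarith
        positivity

theorem summable_aux : Summable (fun n : ℕ => (4 : ℝ) / (n : ℝ) ^ ((3 : ℝ) / 2)) := by
  have := (Real.summable_one_div_nat_rpow (p := (3 : ℝ) / 2)).mpr (by norm_num)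
  simpa [div_eq_mul_inv] using this.mul_left 4

/-- Lower bound in Mertens' first theorem for primes. -/
theorem mertens_prime_lower : ∃ C : ℝ, ∀ x : ℝ, 1 ≤ x →
    Real.log x - C ≤ ∑ p ∈ (Ioc 0 ⌊x⌋₊).filter Nat.Prime, Real.log p / p := by
  refine ⟨2 + ∑' n : ℕ, (4 : ℝ) / (n : ℝ) ^ ((3 : ℝ) / 2), fun x hx => ?_⟩
  set N := ⌊x⌋₊ with hNdef
  have hN : 1 ≤ N := (Nat.one_le_floor_iff x).mpr hx
  have hN' : (0 : ℝ) < N := by exact_mod_cast hN
  have h1 := (le_log_factorial N hN).trans (log_factorial_le_sum_primes N)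
  have h2 : N * (Real.log N - 1) ≤
      N * ∑ p ∈ (Ioc 0 N).filter Nat.Prime, Real.log p / ((p : ℝ) - 1) := by linarith
  have h3 := le_of_mul_le_mul_left h2 hN'
  have h4 : ∑ p ∈ (Ioc 0 N).filter Nat.Prime, Real.log p / ((p : ℝ) - 1) ≤
      ∑ p ∈ (Ioc 0 N).filter Nat.Prime, Real.log p / p +
      ∑ p ∈ (Ioc 0 N).filter Nat.Prime, (4 : ℝ) / (p : ℝ) ^ ((3 : ℝ) / 2) := by
    rw [← Finset.sum_add_distrib]
    apply Finset.sum_le_sum
    intro p hp
    have hp1 := (Finset.mem_filter.mp hp).2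
    have hp2 : (2 : ℝ) ≤ p := by exact_mod_cast hp1.two_le
    have hp0 : (0 : ℝ) < p := by linarith
    have hlog : Real.log p ≤ 2 * (p : ℝ) ^ ((1 : ℝ) / 2) := by
      have := Real.log_le_rpow_div hp0.le (ε := (1 : ℝ) / 2) (by norm_num)
      calc Real.log p ≤ (p : ℝ) ^ ((1 : ℝ) / 2) / (1 / 2) := this
        _ = _ := by ring
    have e1 : Real.log p / ((p : ℝ) - 1) = Real.log p / p + Real.log p / (p * ((p : ℝ) - 1)) := by
      have : (p : ℝ) - 1 ≠ 0 := by linarith
      field_simp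
      ring
    rw [e1]
    refine add_le_add le_rfl ?_
    have e2 : (p : ℝ) ^ ((3 : ℝ) / 2) * (p : ℝ) ^ ((1 : ℝ) / 2) = p ^ 2 := by
      rw [← Real.rpow_add hp0, ← Real.rpow_natCast]; norm_num
    rw [div_le_div_iff₀ (by nlinarith) (by positivity)]
    have e3 : (0 : ℝ) < (p : ℝ) ^ ((3 : ℝ) / 2) := by positivity
    calc Real.log p * (p : ℝ) ^ ((3 : ℝ) / 2)
        ≤ (2 * (p : ℝ) ^ ((1 : ℝ) / 2)) * (p : ℝ) ^ ((3 : ℝ) / 2) := by gcongr
      _ = 2 * p ^ 2 := by rw [← e2]; ring
      _ ≤ 4 * (p * ((p : ℝ) - 1)) := by nlinarith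
  have h5 : ∑ p ∈ (Ioc 0 N).filter Nat.Prime, (4 : ℝ) / (p : ℝ) ^ ((3 : ℝ) / 2) ≤
      ∑' n : ℕ, (4 : ℝ) / (n : ℝ) ^ ((3 : ℝ) / 2) := by
    apply Summable.sum_le_tsum _ _ summable_aux
    intro i _
    positivity
  have h6 : Real.log x ≤ Real.log N + Real.log 2 := by
    rw [← Real.log_mul (by positivity) (by norm_num)]
    apply Real.log_le_log (by linarith)
    have h6 := Nat.lt_floor_add_one x
    have h7 : (1 : ℝ) ≤ N := by exact_mod_cast hN
    rw [← hNdef] at h6
    linarith
  have h8 := Real.log_two_lt_d9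
  linarith

/-- Upper bound in Mertens' first theorem for primes. -/
theorem mertens_prime_upper (x : ℝ) (hx : 1 ≤ x) :
    ∑ p ∈ (Ioc 0 ⌊x⌋₊).filter Nat.Prime, Real.log p / p ≤ Real.log x + 6 := by
  have h1 := mertens x hx
  rw [abs_le] at h1
  have h2 : ∑ p ∈ (Ioc 0 ⌊x⌋₊).filter Nat.Prime, Real.log p / p ≤
      ∑ d ∈ Ioc 0 ⌊x⌋₊, (Λ d : ℝ) / d := by
    calc ∑ p ∈ (Ioc 0 ⌊x⌋₊).filter Nat.Prime, Real.log p / p
        = ∑ p ∈ (Ioc 0 ⌊x⌋₊).filter Nat.Prime, (Λ p : ℝ) / p := by
          apply Finset.sum_congr rfl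
          intro p hp
          rw [ArithmeticFunction.vonMangoldt_apply_prime (Finset.mem_filter.mp hp).2]
      _ ≤ _ := by
          apply Finset.sum_le_sum_of_subset_of_nonneg (Finset.filter_subset _ _)
          intro i _ _
          have : (0 : ℝ) ≤ Λ i := ArithmeticFunction.vonMangoldt_nonneg
          positivity
  linarith [h1.2]

end Pool.Agent.Lib.H62
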