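import Pool.Agent.Lib.H62.ShortPi

open Finset Real Filter

namespace Pool.Agent.Lib.H62

/-- `∑_{p ≤ z} log p / p`. -/
noncomputable def Sm (z : ℝ) : ℝ := ∑ p ∈ (Ioc 0 ⌊z⌋₊).filter Nat.Prime, Real.log p / p

theorem primeCounting_eq_card (n : ℕ) :
    Nat.primeCounting n = ((Ioc 0 n).filter Nat.Prime).card := by
  rw [Nat.primeCounting, Nat.primeCounting', Nat.count_eq_card_filter_range]
  congr 1
  ext p
  simp only [mem_filter, mem_range, mem_Ioc]
  constructor
  · rintro ⟨h1, h2⟩; exact ⟨⟨h2.pos, by omega⟩, h2⟩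
  · rintro ⟨⟨h1, h2⟩, h3⟩; exact ⟨by omega, h3⟩

theorem filter_Ioc_split (a b : ℕ) (hab : a ≤ b) :
    (Ioc 0 b).filter Nat.Prime = (Ioc 0 a).filter Nat.Prime ∪ (Ioc a b).filter Nat.Prime := by
  rw [← Finset.filter_union]
  congr 1
  ext p
  simp only [mem_union, mem_Ioc]
  omega

theorem filter_Ioc_disj (a b : ℕ) :
    Disjoint ((Ioc 0 a).filter Nat.Prime) ((Ioc a b).filter Nat.Prime) := by
  rw [Finset.disjoint_left]
  intro p hp hp2
  simp only [mem_filter, mem_Ioc] at hp hp2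
  omega

theorem rpi_sub (a b : ℝ) (hab : a ≤ b) :
    rpi b - rpi a = (((Ioc ⌊a⌋₊ ⌊b⌋₊).filter Nat.Prime).card : ℝ) := by
  unfold rpi
  rw [primeCounting_eq_card, primeCounting_eq_card,
    filter_Ioc_split ⌊a⌋₊ ⌊b⌋₊ (Nat.floor_mono hab), Finset.card_union_of_disjoint
      (filter_Ioc_disj _ _)]
  push_cast
  ring

theorem Sm_sub (a b : ℝ) (hab : a ≤ b) :
    Sm b - Sm a = ∑ p ∈ (Ioc ⌊a⌋₊ ⌊b⌋₊).filter Nat.Prime, Real.log p / p := by
  unfold Sm
  rw [filter_Ioc_split ⌊a⌋₊ ⌊b⌋₊ (Nat.floor_mono hab), Finset.sum_union (filter_Ioc_disj _ _)]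
  ring

theorem Sm_sub_le (a b : ℝ) (ha : Real.exp 1 ≤ a) (hab : a ≤ b) :
    Sm b - Sm a ≤ (Real.log a / a) * (rpi b - rpi a) := by
  have ha0 : 0 < a := by linarith [Real.exp_pos 1]
  rw [Sm_sub a b hab, rpi_sub a b hab]
  have : ∀ p ∈ (Ioc ⌊a⌋₊ ⌊b⌋₊).filter Nat.Prime, Real.log p / p ≤ Real.log a / a := by
    intro p hp
    simp only [mem_filter, mem_Ioc] at hp
    have h1 : a < p := by
      exact (Nat.floor_lt ha0.le).mp hp.1.1
    exact Real.log_div_self_antitoneOn ha (show Real.exp 1 ≤ (p : ℝ) by linarith) h1.le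
  calc _ ≤ ∑ p ∈ (Ioc ⌊a⌋₊ ⌊b⌋₊).filter Nat.Prime, Real.log a / a := Finset.sum_le_sum this
    _ = _ := by rw [Finset.sum_const, nsmul_eq_mul]; ring

theorem le_Sm_sub (a b : ℝ) (ha : Real.exp 1 ≤ a) (hab : a ≤ b) :
    (Real.log b / b) * (rpi b - rpi a) ≤ Sm b - Sm a := by
  have ha0 : 0 < a := by linarith [Real.exp_pos 1]
  rw [Sm_sub a b hab, rpi_sub a b hab]
  have : ∀ p ∈ (Ioc ⌊a⌋₊ ⌊b⌋₊).filter Nat.Prime, Real.log b / b ≤ Real.log p / p := by
    intro p hp
    simp only [mem_filter, mem_Ioc] at hp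
    have h1 : a < p := by
      exact (Nat.floor_lt ha0.le).mp hp.1.1
    have h2 : (p : ℝ) ≤ b := (Nat.le_floor_iff (by linarith)).mp hp.1.2
    exact Real.log_div_self_antitoneOn (show Real.exp 1 ≤ (p : ℝ) by linarith)
      (show Real.exp 1 ≤ b by linarith) h2
  calc _ = ∑ p ∈ (Ioc ⌊a⌋₊ ⌊b⌋₊).filter Nat.Prime, Real.log b / b := by
        rw [Finset.sum_const, nsmul_eq_mul]; ring
    _ ≤ _ := Finset.sum_le_sum this

/-- A linear-in-`J` inequality forces nonpositive slope. -/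
theorem slope_le_of_forall {s C : ℝ} (h : ∀ J : ℕ, (J : ℝ) * s ≤ C) : s ≤ 0 := by
  by_contra hs
  push Not at hs
  obtain ⟨J, hJ⟩ := exists_nat_gt (C / s)
  have := h J
  rw [div_lt_iff₀ hs] at hJ
  linarith

theorem log_le_of_rpi_le (δ u X : ℝ) (hδ : 0 < δ) (hX : Real.exp 1 ≤ X)
    (h : ∀ x, X ≤ x → rpi (x + δ * x) - rpi x ≤ u * (δ * x / Real.log x)) :
    Real.log (1 + δ) ≤ u * δ := by
  obtain ⟨C, hC⟩ := mertens_prime_lower
  have hX0 : 0 < X := by linarith [Real.exp_pos 1]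
  have hX1 : 1 ≤ X := by
    have := Real.add_one_le_exp (1 : ℝ); linarith
  have key : ∀ J : ℕ, Sm (X * (1 + δ) ^ J) ≤ Sm X + J * (u * δ) := by
    intro J
    induction J with
    | zero => simp
    | succ n ih =>
      set x := X * (1 + δ) ^ n with hx
      have hp1 : (1 : ℝ) ≤ (1 + δ) ^ n := one_le_pow₀ (by linarith)
      have hXx : X ≤ x := by rw [hx]; nlinarith
      have hx0 : 0 < x := by linarith
      have hlog : 1 ≤ Real.log x := by
        rw [← Real.log_exp 1]
        exact Real.log_le_log (Real.exp_pos 1) (hX.trans hXx)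
      have e1 : X * (1 + δ) ^ (n + 1) = x + δ * x := by rw [hx]; ring
      rw [e1]
      have h1 := Sm_sub_le x (x + δ * x) (hX.trans hXx) (by nlinarith)
      have h2 := h x hXx
      have h3 : (Real.log x / x) * (rpi (x + δ * x) - rpi x) ≤ u * δ := by
        calc (Real.log x / x) * (rpi (x + δ * x) - rpi x)
            ≤ (Real.log x / x) * (u * (δ * x / Real.log x)) := by gcongr
          _ = u * δ := by field_simp
      push_cast
      linarith
  have h2 : ∀ J : ℕ, (J : ℝ) * (Real.log (1 + δ) - u * δ) ≤ Sm X + C - Real.log X := by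
    intro J
    have h3 := key J
    have hp1 : (1 : ℝ) ≤ (1 + δ) ^ J := one_le_pow₀ (by linarith)
    have h4 := hC (X * (1 + δ) ^ J) (by nlinarith)
    rw [Real.log_mul (by positivity) (by positivity), Real.log_pow] at h4
    have h5 : Real.log X + J * Real.log (1 + δ) - C ≤ Sm (X * (1 + δ) ^ J) := h4
    linarith
  have := slope_le_of_forall h2
  linarith

theorem le_log_of_le_rpi (δ l X : ℝ) (hδ : 0 < δ) (hX : Real.exp 1 ≤ X) (hl : 0 ≤ l)
    (h : ∀ x, X ≤ x → l * (δ * x / Real.log x) ≤ rpi (x + δ * x) - rpi x) :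
    l * δ / (1 + δ) ≤ Real.log (1 + δ) := by
  have hX0 : 0 < X := by linarith [Real.exp_pos 1]
  have hX1 : 1 ≤ X := by
    have := Real.add_one_le_exp (1 : ℝ); linarith
  have key : ∀ J : ℕ, Sm X + J * (l * δ / (1 + δ)) ≤ Sm (X * (1 + δ) ^ J) := by
    intro J
    induction J with
    | zero => simp
    | succ n ih =>
      set x := X * (1 + δ) ^ n with hx
      have hp1 : (1 : ℝ) ≤ (1 + δ) ^ n := one_le_pow₀ (by linarith)
      have hXx : X ≤ x := by rw [hx]; nlinarith
      have hx0 : 0 < x := by linarith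
      have hlog : 1 ≤ Real.log x := by
        rw [← Real.log_exp 1]
        exact Real.log_le_log (Real.exp_pos 1) (hX.trans hXx)
      have e1 : X * (1 + δ) ^ (n + 1) = x + δ * x := by rw [hx]; ring
      rw [e1]
      have hx' : 0 < x + δ * x := by positivity
      have hlog' : Real.log x ≤ Real.log (x + δ * x) := Real.log_le_log hx0 (by nlinarith)
      have h1 := le_Sm_sub x (x + δ * x) (hX.trans hXx) (by nlinarith)
      have h2 := h x hXx
      have h3 : l * δ / (1 + δ) ≤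
          (Real.log (x + δ * x) / (x + δ * x)) * (rpi (x + δ * x) - rpi x) := by
        calc l * δ / (1 + δ) = (Real.log x / (x + δ * x)) * (l * (δ * x / Real.log x)) := by
              field_simp
          _ ≤ (Real.log (x + δ * x) / (x + δ * x)) * (rpi (x + δ * x) - rpi x) := by
              have h5 : 0 ≤ l * (δ * x / Real.log x) := by positivity
              apply mul_le_mul _ h2 h5 (div_nonneg (by linarith) hx'.le)
              gcongr
      push_cast
      linarith
  have h2 : ∀ J : ℕ, (J : ℝ) * (l * δ / (1 + δ) - Real.log (1 + δ)) ≤ Real.log X + 6 - Sm X := by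
    intro J
    have h3 := key J
    have hp1 : (1 : ℝ) ≤ (1 + δ) ^ J := one_le_pow₀ (by linarith)
    have h4 := mertens_prime_upper (X * (1 + δ) ^ J) (by nlinarith)
    rw [Real.log_mul (by positivity) (by positivity), Real.log_pow] at h4
    have h5 : Sm (X * (1 + δ) ^ J) ≤ Real.log X + J * Real.log (1 + δ) + 6 := h4
    linarith
  have := slope_le_of_forall h2
  linarith

end Pool.Agent.Lib.H62
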