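import Mathlib
import Pool.Agent.Lib.H62.ShortPi2

section

open Finset Real Filter

namespace Pool.Agent.Lib.H62

theorem tendsto_log_atTop' : Tendsto Real.log atTop atTop := Real.tendsto_log_atTop

theorem one_le_rpow_log {a x t : ℝ} (ha : 0 < a) (hx : Real.exp 1 ≤ x) (ht : x ≤ t) :
    1 ≤ Real.log t ^ a := by
  have hlog : 1 ≤ Real.log t := by
    rw [← Real.log_exp 1]
    exact Real.log_le_log (Real.exp_pos 1) (hx.trans ht)
  exact Real.one_le_rpow hlog ha.le

theorem log_two_mul_le {x : ℝ} (hx : Real.exp 1 ≤ x) : Real.log (2 * x) ≤ Real.log x + 1 := by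
  have hx0 : 0 < x := by linarith [Real.exp_pos 1]
  rw [Real.log_mul (by norm_num) hx0.ne']
  have := Real.log_two_lt_d9
  linarith

theorem rpow_log_le {a x t : ℝ} (ha : 0 < a) (hx : Real.exp 1 ≤ x) (ht : x ≤ t)
    (ht2 : t ≤ 2 * x) : Real.log t ^ a ≤ 2 ^ a * Real.log x ^ a := by
  have hx0 : 0 < x := by linarith [Real.exp_pos 1]
  have hlog : 1 ≤ Real.log x := by
    rw [← Real.log_exp 1]
    exact Real.log_le_log (Real.exp_pos 1) hx
  have h1 : Real.log t ≤ 2 * Real.log x := by
    have h2 := log_two_mul_le hx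
    have h3 := Real.log_le_log (by linarith) ht2
    linarith
  rw [← Real.mul_rpow (by norm_num) (by linarith)]
  exact Real.rpow_le_rpow (Real.log_nonneg (by linarith [Real.add_one_le_exp (1:ℝ)])) h1 ha.le

theorem H_div_y_le {a x y : ℝ} (hx : Real.exp 1 ≤ x)
    (hy : Real.log x ^ (a + 1) ≤ y) : (2 ^ a * Real.log x ^ a) / y ≤ 2 ^ a / Real.log x := by
  have hlog : 1 ≤ Real.log x := by
    rw [← Real.log_exp 1]
    exact Real.log_le_log (Real.exp_pos 1) hx
  have h0 : 0 < Real.log x ^ (a + 1) := by positivity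
  have e1 : Real.log x ^ (a + 1) = Real.log x ^ a * Real.log x := by
    rw [Real.rpow_add (by linarith), Real.rpow_one]
  calc (2 ^ a * Real.log x ^ a) / y ≤ (2 ^ a * Real.log x ^ a) / (Real.log x ^ (a + 1)) := by
        gcongr
    _ = 2 ^ a / Real.log x := by
        rw [e1]; field_simp

theorem eventually_upper {a u : ℝ} (ha : 0 < a) (hu : 0 ≤ u)
    (h : ∀ᶠ t in atTop, Rr t (Real.log t ^ a) ≤ u) {η : ℝ} (hη : 0 < η) :
    ∀ᶠ x in atTop, ∀ y, Real.log x ^ (a + 1) ≤ y → y ≤ x → Rr x y ≤ u + η := by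
  obtain ⟨X, hX⟩ := eventually_atTop.mp h
  have hlim : ∀ᶠ x in atTop, u * 2 ^ a / η ≤ Real.log x :=
    tendsto_log_atTop'.eventually_ge_atTop _
  filter_upwards [eventually_ge_atTop X, eventually_ge_atTop (Real.exp 1), hlim] with x h1 h2 h3
  intro y hy hyx
  have hlog : 1 ≤ Real.log x := by
    rw [← Real.log_exp 1]
    exact Real.log_le_log (Real.exp_pos 1) h2
  have hy0 : 0 < y := lt_of_lt_of_le (by positivity) hy
  have h4 := Rr_upper_of_tiles (fun t => Real.log t ^ a) x y u (2 ^ a * Real.log x ^ a) h2 hu hy0 hyx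
    (fun t ht => one_le_rpow_log ha h2 ht) (fun t ht ht2 => rpow_log_le ha h2 ht ht2)
    (fun t ht => hX t (h1.trans ht))
  have h5 := H_div_y_le h2 hy
  have h6 : u * 2 ^ a / Real.log x ≤ η := by
    rw [div_le_iff₀ (by linarith)]
    rw [div_le_iff₀ hη] at h3
    linarith
  calc Rr x y ≤ u * (1 + (2 ^ a * Real.log x ^ a) / y) := h4
    _ ≤ u * (1 + 2 ^ a / Real.log x) := by gcongr
    _ = u + u * 2 ^ a / Real.log x := by ring
    _ ≤ u + η := by linarith

theorem eventually_lower {a l : ℝ} (ha : 0 < a) (hl : 0 ≤ l)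
    (h : ∀ᶠ t in atTop, l ≤ Rr t (Real.log t ^ a)) {η : ℝ} (hη : 0 < η) :
    ∀ᶠ x in atTop, ∀ y, Real.log x ^ (a + 1) ≤ y → y ≤ x → l - η ≤ Rr x y := by
  obtain ⟨X, hX⟩ := eventually_atTop.mp h
  have hlim : ∀ᶠ x in atTop, l * (2 ^ a + 1) / η ≤ Real.log x :=
    tendsto_log_atTop'.eventually_ge_atTop _
  have hlim2 : ∀ᶠ x in atTop, (2 : ℝ) ^ a ≤ Real.log x :=
    tendsto_log_atTop'.eventually_ge_atTop _
  filter_upwards [eventually_ge_atTop X, eventually_ge_atTop (Real.exp 1), hlim, hlim2] with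
    x h1 h2 h3 h3'
  intro y hy hyx
  have hx0 : 0 < x := by linarith [Real.exp_pos 1]
  have hlog : 1 ≤ Real.log x := by
    rw [← Real.log_exp 1]
    exact Real.log_le_log (Real.exp_pos 1) h2
  have hlog0 : 0 < Real.log x := by linarith
  have hy0 : 0 < y := lt_of_lt_of_le (by positivity) hy
  have h4 := Rr_lower_of_tiles (fun t => Real.log t ^ a) x y l (2 ^ a * Real.log x ^ a) h2 hl hy0 hyx
    (fun t ht => one_le_rpow_log ha h2 ht) (fun t ht ht2 => rpow_log_le ha h2 ht ht2)
    (fun t ht => hX t (h1.trans ht))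
  have h5 := H_div_y_le h2 hy
  have h6 : l * (2 ^ a + 1) / Real.log x ≤ η := by
    rw [div_le_iff₀ (by linarith)]
    rw [div_le_iff₀ hη] at h3
    linarith
  have h7 : 1 - 1 / Real.log x ≤ Real.log x / Real.log (2 * x) := by
    have h8 := log_two_mul_le h2
    have h9 : 0 < Real.log (2 * x) := Real.log_pos (by
      have := Real.add_one_le_exp (1:ℝ); linarith)
    rw [le_div_iff₀ h9]
    have h10 : Real.log (2 * x) / Real.log x ≥ 1 := by
      rw [ge_iff_le, one_le_div hlog0]
      exact Real.log_le_log hx0 (by linarith)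
    have h11 : (1 - 1 / Real.log x) * Real.log (2 * x) =
        Real.log (2 * x) - Real.log (2 * x) / Real.log x := by ring
    rw [h11]; linarith
  have h12 : 0 ≤ 1 - 2 ^ a / Real.log x := by
    have : (2 : ℝ) ^ a / Real.log x ≤ 1 := by rw [div_le_one hlog0]; exact h3'
    linarith
  have h13 : 0 ≤ 1 - 1 / Real.log x := by
    have : 1 / Real.log x ≤ 1 := by rw [div_le_one hlog0]; exact hlog
    linarith
  calc l - η ≤ l - l * (2 ^ a + 1) / Real.log x := by linarith
    _ ≤ l * ((1 - 2 ^ a / Real.log x) * (1 - 1 / Real.log x)) := by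
        have e : l * ((1 - 2 ^ a / Real.log x) * (1 - 1 / Real.log x)) =
          (l - l * (2 ^ a + 1) / Real.log x) + l * (2 ^ a / Real.log x * (1 / Real.log x)) := by
            ring
        rw [e]
        have : 0 ≤ l * (2 ^ a / Real.log x * (1 / Real.log x)) := by positivity
        linarith
    _ ≤ l * ((1 - (2 ^ a * Real.log x ^ a) / y) * (Real.log x / Real.log (2 * x))) := by
        apply mul_le_mul_of_nonneg_left _ hl
        apply mul_le_mul (by linarith) h7 h13 (by linarith)
    _ = l * (1 - (2 ^ a * Real.log x ^ a) / y) * (Real.log x / Real.log (2 * x)) := by ring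
    _ ≤ Rr x y := h4

/-- `(log x)^b ≤ δ x` eventually. -/
theorem eventually_rpow_log_le {b δ : ℝ} (hδ : 0 < δ) :
    ∀ᶠ x : ℝ in atTop, Real.log x ^ b ≤ δ * x := by
  have h := isLittleO_log_rpow_rpow_atTop b (s := 1) one_pos
  have h2 := h.bound hδ
  filter_upwards [h2, eventually_ge_atTop (1 : ℝ)] with x hx hx1
  rw [Real.norm_eq_abs, Real.norm_eq_abs, Real.rpow_one, abs_of_nonneg (by linarith : (0:ℝ) ≤ x),
    abs_of_nonneg (Real.rpow_nonneg (Real.log_nonneg hx1) _)] at hx
  exact hx

/-- The upper normalised density at scale `(log x)^a` cannot be eventually below `u < 1`. -/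
theorem one_le_of_eventually_le {a u : ℝ} (ha : 0 < a) (hu : 0 ≤ u)
    (h : ∀ᶠ t in atTop, Rr t (Real.log t ^ a) ≤ u) : 1 ≤ u := by
  by_contra hcon
  push Not at hcon
  set η := (1 - u) / 4 with hη
  have hη0 : 0 < η := by rw [hη]; linarith
  have h1 := eventually_upper ha hu h hη0
  -- choose δ = min(η, 1)
  set δ := min η 1 with hδ
  have hδ0 : 0 < δ := lt_min hη0 one_pos
  have hδ1 : δ ≤ 1 := min_le_right _ _
  have hδη : δ ≤ η := min_le_left _ _
  have h2 := eventually_rpow_log_le (b := a + 1) hδ0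
  obtain ⟨X, hX⟩ := eventually_atTop.mp (h1.and (h2.and (eventually_ge_atTop (Real.exp 1))))
  have hXe : Real.exp 1 ≤ X := (hX X le_rfl).2.2
  have h3 := log_le_of_rpi_le δ (u + η) X hδ0 hXe (by
    intro x hx
    obtain ⟨g1, g2, g3⟩ := hX x hx
    have hx0 : 0 < x := by linarith [Real.exp_pos 1]
    have hlog : 1 ≤ Real.log x := by
      rw [← Real.log_exp 1]
      exact Real.log_le_log (Real.exp_pos 1) g3
    have g4 := g1 (δ * x) g2 (by nlinarith)
    unfold Rr at g4
    rwa [div_le_iff₀ (by positivity)] at g4)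
  have h4 : δ - δ ^ 2 ≤ Real.log (1 + δ) := by
    have h5 := Real.one_sub_inv_le_log_of_pos (x := 1 + δ) (by linarith)
    have h6 : δ - δ ^ 2 ≤ 1 - (1 + δ)⁻¹ := by
      have : 1 - (1 + δ)⁻¹ = δ / (1 + δ) := by field_simp; ring
      rw [this, le_div_iff₀ (by linarith)]
      nlinarith [pow_pos hδ0 3]
    linarith
  have h7 : δ * (1 - δ) ≤ δ * (u + η) := by nlinarith
  have h8 := le_of_mul_le_mul_left h7 hδ0
  have : u = 1 - 4 * η := by rw [hη]; ring
  linarith

/-- The lower normalised density at scale `(log x)^a` cannot be eventually above `l > 1`. -/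
theorem le_one_of_eventually_ge {a l : ℝ} (ha : 0 < a)
    (h : ∀ᶠ t in atTop, l ≤ Rr t (Real.log t ^ a)) : l ≤ 1 := by
  by_contra hcon
  push Not at hcon
  have hl : 0 ≤ l := by linarith
  set η := (l - 1) / 4 with hη
  have hη0 : 0 < η := by rw [hη]; linarith
  have h1 := eventually_lower ha hl h hη0
  set δ := min η 1 with hδ
  have hδ0 : 0 < δ := lt_min hη0 one_pos
  have hδ1 : δ ≤ 1 := min_le_right _ _
  have hδη : δ ≤ η := min_le_left _ _
  have h2 := eventually_rpow_log_le (b := a + 1) hδ0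
  obtain ⟨X, hX⟩ := eventually_atTop.mp (h1.and (h2.and (eventually_ge_atTop (Real.exp 1))))
  have hXe : Real.exp 1 ≤ X := (hX X le_rfl).2.2
  have h3 := le_log_of_le_rpi δ (l - η) X hδ0 hXe (by linarith) (by
    intro x hx
    obtain ⟨g1, g2, g3⟩ := hX x hx
    have hx0 : 0 < x := by linarith [Real.exp_pos 1]
    have hlog : 1 ≤ Real.log x := by
      rw [← Real.log_exp 1]
      exact Real.log_le_log (Real.exp_pos 1) g3
    have g4 := g1 (δ * x) g2 (by nlinarith)
    unfold Rr at g4
    rwa [le_div_iff₀ (by positivity)] at g4)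
  have h4 : Real.log (1 + δ) ≤ δ := by
    have := Real.log_le_sub_one_of_pos (x := 1 + δ) (by linarith)
    linarith
  have h5 : (l - η) * δ / (1 + δ) ≤ δ := h3.trans h4
  rw [div_le_iff₀ (by linarith)] at h5
  have h6 : δ * (l - η) ≤ δ * (1 + δ) := by linarith
  have h7 := le_of_mul_le_mul_left h6 hδ0
  have : l = 1 + 4 * η := by rw [hη]; ring
  linarith

theorem Rr_nonneg {x y : ℝ} (hx : 1 ≤ x) (hy : 0 ≤ y) : 0 ≤ Rr x y := by
  unfold Rr
  have h1 := rpi_mono (show x ≤ x + y by linarith)
  have h2 := Real.log_nonneg hx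
  exact div_nonneg (by linarith) (div_nonneg hy h2)

end Pool.Agent.Lib.H62
end

section

/-!
A one-sided maximal inequality (the rising sun argument) for a monotone function that stays within bounded
distance of the identity.
-/

open Set MeasureTheory Filter Topology

namespace Pool.Agent.Lib.H62

section
variable (M : ℝ → ℝ) (l C : ℝ)

/-- future supremum of `M v - l v`. -/
noncomputable def futSup (u : ℝ) : ℝ := sSup ((fun v => M v - l * v) '' Ici u)

variable {M l C}

theorem bddAbove_fut (hC : ∀ u, 0 ≤ u → M u - u ≤ C) (hl : 1 ≤ l) {u : ℝ} (hu : 0 ≤ u) :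
    BddAbove ((fun v => M v - l * v) '' Ici u) := by
  refine ⟨C, ?_⟩
  rintro _ ⟨v, hv, rfl⟩
  have hv0 : 0 ≤ v := hu.trans hv
  have := hC v hv0
  simp only
  nlinarith

theorem le_futSup (hC : ∀ u, 0 ≤ u → M u - u ≤ C) (hl : 1 ≤ l) {u v : ℝ} (hu : 0 ≤ u)
    (huv : u ≤ v) : M v - l * v ≤ futSup M l u :=
  le_csSup (bddAbove_fut hC hl hu) ⟨v, huv, rfl⟩

theorem futSup_le {u b : ℝ} (h : ∀ v, u ≤ v → M v - l * v ≤ b) : futSup M l u ≤ b := by
  apply csSup_le
  · exact ⟨_, u, le_refl u, rfl⟩
  · rintro _ ⟨v, hv, rfl⟩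
    exact h v hv

theorem futSup_anti (hC : ∀ u, 0 ≤ u → M u - u ≤ C) (hl : 1 ≤ l) {u v : ℝ} (hu : 0 ≤ u)
    (huv : u ≤ v) : futSup M l v ≤ futSup M l u :=
  futSup_le fun _ hw => le_futSup hC hl hu (huv.trans hw)

theorem futSup_lip (hM : Monotone M) (hC : ∀ u, 0 ≤ u → M u - u ≤ C) (hl : 1 ≤ l) {u v : ℝ}
    (hu : 0 ≤ u) (huv : u ≤ v) : futSup M l u ≤ futSup M l v + l * (v - u) := by
  apply futSup_le
  intro w hw
  rcases le_total v w with h | h
  · have := le_futSup hC hl (hu.trans huv) h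
    nlinarith
  · have h1 := le_futSup hC hl (hu.trans huv) (le_refl v)
    have h2 := hM h
    nlinarith

theorem rising_sun (hM : Monotone M) (hrc : ∀ u, ContinuousWithinAt M (Ici u) u)
    (hC : ∀ u, 0 ≤ u → |M u - u| ≤ C) (hl : 1 ≤ l) (U : ℝ) (hU : 0 ≤ U) :
    ENNReal.ofReal ((l - 1) * U - 2 * C) ≤
      ENNReal.ofReal l * volume {u : ℝ | 0 ≤ u ∧ u ≤ U ∧ ∀ v, u ≤ v → M v - M u ≤ l * (v - u)} := by
  have hC' : ∀ u, 0 ≤ u → M u - u ≤ C := fun u hu => (abs_le.mp (hC u hu)).2
  have hC'' : ∀ u, 0 ≤ u → -C ≤ M u - u := fun u hu => (abs_le.mp (hC u hu)).1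
  set G := {u : ℝ | 0 ≤ u ∧ u ≤ U ∧ ∀ v, u ≤ v → M v - M u ≤ l * (v - u)} with hG
  set S := futSup M l with hS
  have hlip : LipschitzOnWith (Real.toNNReal l) S G := by
    apply LipschitzOnWith.of_dist_le_mul
    intro x hx y hy
    rw [Real.coe_toNNReal l (by linarith), Real.dist_eq, Real.dist_eq]
    rcases le_total x y with h | h
    · have h1 := futSup_lip hM hC' hl hx.1 h
      have h2 := futSup_anti hC' hl hx.1 h
      rw [abs_of_nonneg (by linarith), abs_of_nonpos (by linarith)]
      linarith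
    · have h1 := futSup_lip hM hC' hl hy.1 h
      have h2 := futSup_anti hC' hl hy.1 h
      rw [abs_of_nonpos (by linarith), abs_of_nonneg (by linarith)]
      linarith
  have himg : Ioc (S U) (S 0) ⊆ S '' G := by
    intro s hs
    set A := {u : ℝ | 0 ≤ u ∧ u ≤ U ∧ s ≤ S u} with hA
    have h0A : (0 : ℝ) ∈ A := ⟨le_refl _, hU, hs.2⟩
    have hAb : BddAbove A := ⟨U, fun u hu => hu.2.1⟩
    set w := sSup A with hw
    have hw0 : 0 ≤ w := le_csSup hAb h0A
    have hwU : w ≤ U := csSup_le ⟨0, h0A⟩ (fun u hu => hu.2.1)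
    -- S w ≥ s
    have hSw : s ≤ S w := by
      by_contra hcon
      push Not at hcon
      set δ := (s - S w) / (2 * l) with hδ
      have hl0 : 0 < l := by linarith
      have hδ0 : 0 < δ := by rw [hδ]; apply div_pos <;> linarith
      obtain ⟨u, huA, hu⟩ := exists_lt_of_lt_csSup ⟨0, h0A⟩ (show w - δ < w by linarith)
      have huw : u ≤ w := le_csSup hAb huA
      have h1 := futSup_lip hM hC' hl huA.1 huw
      have h2 : l * (w - u) ≤ l * δ := by
        apply mul_le_mul_of_nonneg_left (by linarith) hl0.le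
      have h3 : l * δ = (s - S w) / 2 := by rw [hδ]; field_simp
      have h4 := huA.2.2
      have h5 : S u ≤ S w + l * (w - u) := h1
      linarith
    have hwU' : w < U := by
      rcases lt_or_eq_of_le hwU with h | h
      · exact h
      · exfalso
        rw [h] at hSw
        exact absurd hs.1 (not_lt.mpr hSw)
    have hafter : ∀ u, w < u → u ≤ U → S u < s := by
      intro u hu huU
      by_contra hcon
      push Not at hcon
      have : u ≤ w := le_csSup hAb ⟨by linarith, huU, hcon⟩
      linarith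
    have hSw' : S w ≤ s := by
      by_contra hcon
      push Not at hcon
      set δ := min ((S w - s) / (2 * l)) (U - w) with hδ
      have hl0 : 0 < l := by linarith
      have hδ0 : 0 < δ := by
        rw [hδ]; apply lt_min
        · apply div_pos <;> linarith
        · linarith
      have hδ1 : δ ≤ (S w - s) / (2 * l) := min_le_left _ _
      have hδ2 : δ ≤ U - w := min_le_right _ _
      have h1 := futSup_lip hM hC' hl hw0 (show w ≤ w + δ by linarith)
      have h2 := hafter (w + δ) (by linarith) (by linarith)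
      have h3 : l * δ ≤ (S w - s) / 2 := by
        calc l * δ ≤ l * ((S w - s) / (2 * l)) := by gcongr
          _ = _ := by field_simp
      have h5 : S w ≤ S (w + δ) + l * (w + δ - w) := h1
      have h6 : l * (w + δ - w) = l * δ := by ring
      rw [h6] at h5
      linarith
    have hSeq : S w = s := le_antisymm hSw' hSw
    -- the value is attained at w
    have hPhi : s ≤ M w - l * w := by
      by_contra hcon
      push Not at hcon
      set s' := (M w - l * w + s) / 2 with hs'
      have hs1 : M w - l * w < s' := by rw [hs']; linarith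
      have hs2 : s' < s := by rw [hs']; linarith
      have hcont : ContinuousWithinAt (fun v => M v - l * v) (Ici w) w :=
        (hrc w).sub (continuous_const.mul continuous_id).continuousWithinAt
      have hev : ∀ᶠ v in 𝓝[Ici w] w, M v - l * v < s' :=
        hcont.eventually (gt_mem_nhds hs1)
      rw [eventually_nhdsWithin_iff, Metric.eventually_nhds_iff] at hev
      obtain ⟨δ, hδ0, hδ⟩ := hev
      set v₁ := min (w + δ / 2) U with hv1
      have hwv : w < v₁ := by rw [hv1]; apply lt_min <;> linarith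
      have hv1U : v₁ ≤ U := min_le_right _ _
      have hv1δ : v₁ ≤ w + δ / 2 := min_le_left _ _
      have h1 := hafter v₁ hwv hv1U
      have h2 : S w ≤ max s' (S v₁) := by
        apply futSup_le
        intro v hv
        rcases le_total v₁ v with h | h
        · exact le_max_of_le_right (le_futSup hC' hl (by linarith) h)
        · apply le_max_of_le_left
          apply le_of_lt
          apply hδ _ hv
          rw [Real.dist_eq, abs_of_nonneg (by linarith)]
          linarith
      rw [hSeq] at h2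
      rcases le_max_iff.mp h2 with h | h <;> linarith
    refine ⟨w, ⟨hw0, hwU, ?_⟩, hSeq⟩
    intro v hv
    have h1 := le_futSup hC' hl hw0 hv
    have h2 : M v - l * v ≤ S w := h1
    rw [hSeq] at h2
    linarith
  have hvol : volume (S '' G) ≤ ENNReal.ofReal l * volume G := by
    have := hlip.hausdorffMeasure_image_le (d := 1) (by norm_num)
    rw [hausdorffMeasure_real, ENNReal.rpow_one] at this
    exact this
  have hS0 : -C ≤ S 0 := by
    have h1 := le_futSup hC' hl (le_refl (0 : ℝ)) (le_refl (0 : ℝ))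
    have h2 := hC'' 0 le_rfl
    have h3 : M 0 - l * 0 ≤ S 0 := h1
    linarith
  have hSU : S U ≤ C - (l - 1) * U := by
    apply futSup_le
    intro v hv
    have h1 := hC' v (hU.trans hv)
    nlinarith
  calc ENNReal.ofReal ((l - 1) * U - 2 * C) ≤ ENNReal.ofReal (S 0 - S U) := by
        apply ENNReal.ofReal_le_ofReal; linarith
    _ = volume (Ioc (S U) (S 0)) := by rw [Real.volume_Ioc]
    _ ≤ volume (S '' G) := measure_mono himg
    _ ≤ _ := hvol

end

end Pool.Agent.Lib.H62
end
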