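import Pool.Agent.Lib.H62.MertensPrime

/-!
Tools on the normalised count of primes in short intervals.
-/

open Finset Real Filter

namespace Pool.Agent.Lib.H62

/-- `π(z)` for real `z`, as a real number. -/
noncomputable def rpi (z : ℝ) : ℝ := (Nat.primeCounting ⌊z⌋₊ : ℝ)

theorem rpi_mono : Monotone rpi := by
  intro a b hab
  unfold rpi
  exact_mod_cast Nat.monotone_primeCounting (Nat.floor_mono hab)

theorem rpi_nonneg (z : ℝ) : 0 ≤ rpi z := by unfold rpi; positivity

/-- The normalised number of primes in `(x, x+y]`. -/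
noncomputable def Rr (x y : ℝ) : ℝ := (rpi (x + y) - rpi x) / (y / Real.log x)

/-- The tiling sequence. -/
noncomputable def tile (h : ℝ → ℝ) (x : ℝ) : ℕ → ℝ
  | 0 => x
  | (i + 1) => tile h x i + h (tile h x i)

theorem tile_ge (h : ℝ → ℝ) (x : ℝ) (hh : ∀ t, x ≤ t → 1 ≤ h t) (i : ℕ) :
    x + i ≤ tile h x i := by
  induction i with
  | zero => simp [tile]
  | succ n ih =>
    have h1 : x ≤ tile h x n := by
      have : (0 : ℝ) ≤ n := Nat.cast_nonneg n
      linarith
    have h2 := hh _ h1
    simp only [tile]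
    push_cast
    linarith

theorem tile_ge_self (h : ℝ → ℝ) (x : ℝ) (hh : ∀ t, x ≤ t → 1 ≤ h t) (i : ℕ) :
    x ≤ tile h x i := by
  have := tile_ge h x hh i
  have h2 : (0 : ℝ) ≤ i := Nat.cast_nonneg i
  linarith

/-- Upper bound along the tiling. -/
theorem tile_upper (h : ℝ → ℝ) (x u : ℝ) (hx : Real.exp 1 ≤ x) (hu : 0 ≤ u)
    (hh : ∀ t, x ≤ t → 1 ≤ h t) (hR : ∀ t, x ≤ t → Rr t (h t) ≤ u) (j : ℕ) :
    rpi (tile h x j) - rpi x ≤ u * ((tile h x j - x) / Real.log x) := by
  have hlogx : 1 ≤ Real.log x := by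
    rw [← Real.log_exp 1]; exact Real.log_le_log (Real.exp_pos 1) hx
  induction j with
  | zero => simp [tile]
  | succ n ih =>
    have h1 := tile_ge_self h x hh n
    set t := tile h x n with ht
    have h2 := hR t h1
    have h3 := hh t h1
    have hlogt : Real.log x ≤ Real.log t := Real.log_le_log (by linarith [Real.exp_pos 1]) h1
    have h4 : rpi (t + h t) - rpi t ≤ u * (h t / Real.log t) := by
      unfold Rr at h2
      rwa [div_le_iff₀ (div_pos (by linarith) (by linarith))] at h2
    have h5 : h t / Real.log t ≤ h t / Real.log x := by gcongr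
    have h6 : u * (h t / Real.log t) ≤ u * (h t / Real.log x) := by gcongr
    have h7 : tile h x (n + 1) = t + h t := rfl
    rw [h7]
    have h8 : u * ((t + h t - x) / Real.log x) =
        u * ((t - x) / Real.log x) + u * (h t / Real.log x) := by ring
    rw [h8]
    linarith

/-- Lower bound along the tiling. -/
theorem tile_lower (h : ℝ → ℝ) (x z l : ℝ) (hx : Real.exp 1 ≤ x) (hl : 0 ≤ l)
    (hh : ∀ t, x ≤ t → 1 ≤ h t) (hR : ∀ t, x ≤ t → l ≤ Rr t (h t)) (j : ℕ)
    (hz : tile h x j ≤ z) :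
    l * ((tile h x j - x) / Real.log z) ≤ rpi (tile h x j) - rpi x := by
  have hlogx : 1 ≤ Real.log x := by
    rw [← Real.log_exp 1]; exact Real.log_le_log (Real.exp_pos 1) hx
  induction j with
  | zero => simp [tile]
  | succ n ih =>
    have h1 := tile_ge_self h x hh n
    have h7 : tile h x (n + 1) = tile h x n + h (tile h x n) := rfl
    have h3 := hh _ h1
    have hz' : tile h x n ≤ z := by rw [h7] at hz; linarith
    have ih' := ih hz'
    set t := tile h x n with ht
    have h2 := hR t h1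
    have hx0 : 0 < x := by linarith [Real.exp_pos 1]
    have hlogt : Real.log x ≤ Real.log t := Real.log_le_log hx0 h1
    have hlogz : Real.log t ≤ Real.log z := Real.log_le_log (by linarith) hz'
    have hlt0 : 0 < Real.log t := by linarith
    have h4 : l * (h t / Real.log t) ≤ rpi (t + h t) - rpi t := by
      unfold Rr at h2
      rwa [le_div_iff₀ (div_pos (by linarith) hlt0)] at h2
    have h5 : h t / Real.log z ≤ h t / Real.log t := by gcongr
    have h6 : l * (h t / Real.log z) ≤ l * (h t / Real.log t) := by gcongr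
    rw [h7]
    have h8 : l * ((t + h t - x) / Real.log z) =
        l * ((t - x) / Real.log z) + l * (h t / Real.log z) := by ring
    rw [h8]
    linarith

/-- The index at which the tiling passes `z`. -/
theorem exists_tile_index (h : ℝ → ℝ) (x z : ℝ) (hxz : x < z) (hh : ∀ t, x ≤ t → 1 ≤ h t) :
    ∃ j : ℕ, tile h x j < z ∧ z ≤ tile h x (j + 1) := by
  have hex : ∃ j : ℕ, z ≤ tile h x j := by
    obtain ⟨j, hj⟩ := exists_nat_ge (z - x)
    refine ⟨j, ?_⟩
    have := tile_ge h x hh j
    linarith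
  classical
  let j := Nat.find hex
  have hj : z ≤ tile h x j := Nat.find_spec hex
  have hj0 : j ≠ 0 := by
    intro h0
    rw [h0] at hj
    simp only [tile] at hj
    linarith
  obtain ⟨i, hi⟩ := Nat.exists_eq_succ_of_ne_zero hj0
  refine ⟨i, ?_, ?_⟩
  · have := Nat.find_min hex (m := i) (by
      change i < j
      omega)
    exact not_le.mp this
  · rw [hi] at hj; exact hj

/-- From all tiles to all intervals: upper bound. -/
theorem Rr_upper_of_tiles (h : ℝ → ℝ) (x y u H : ℝ) (hx : Real.exp 1 ≤ x) (hu : 0 ≤ u)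
    (hy : 0 < y) (hyx : y ≤ x)
    (hh : ∀ t, x ≤ t → 1 ≤ h t) (hH : ∀ t, x ≤ t → t ≤ 2 * x → h t ≤ H)
    (hR : ∀ t, x ≤ t → Rr t (h t) ≤ u) :
    Rr x y ≤ u * (1 + H / y) := by
  have hlogx : 1 ≤ Real.log x := by
    rw [← Real.log_exp 1]; exact Real.log_le_log (Real.exp_pos 1) hx
  obtain ⟨j, hj1, hj2⟩ := exists_tile_index h x (x + y) (by linarith) hh
  have h1 := tile_upper h x u hx hu hh hR (j + 1)
  have h2 := rpi_mono hj2
  have h3 := tile_ge_self h x hh j
  have h4 : tile h x (j + 1) = tile h x j + h (tile h x j) := rfl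
  have h5 := hH _ h3 (by linarith)
  have h6 : tile h x (j + 1) - x ≤ y + H := by rw [h4]; linarith
  have h7 : rpi (x + y) - rpi x ≤ u * ((y + H) / Real.log x) := by
    calc rpi (x + y) - rpi x ≤ rpi (tile h x (j + 1)) - rpi x := by linarith
      _ ≤ _ := h1
      _ ≤ _ := by gcongr
  unfold Rr
  rw [div_le_iff₀ (by positivity)]
  calc rpi (x + y) - rpi x ≤ u * ((y + H) / Real.log x) := h7
    _ = u * (1 + H / y) * (y / Real.log x) := by field_simp

/-- From all tiles to all intervals: lower bound. -/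
theorem Rr_lower_of_tiles (h : ℝ → ℝ) (x y l H : ℝ) (hx : Real.exp 1 ≤ x) (hl : 0 ≤ l)
    (hy : 0 < y) (hyx : y ≤ x)
    (hh : ∀ t, x ≤ t → 1 ≤ h t) (hH : ∀ t, x ≤ t → t ≤ 2 * x → h t ≤ H)
    (hR : ∀ t, x ≤ t → l ≤ Rr t (h t)) :
    l * (1 - H / y) * (Real.log x / Real.log (2 * x)) ≤ Rr x y := by
  have hx0 : 0 < x := by linarith [Real.exp_pos 1]
  have hlogx : 1 ≤ Real.log x := by
    rw [← Real.log_exp 1]; exact Real.log_le_log (Real.exp_pos 1) hx
  have hlog2x : 1 ≤ Real.log (2 * x) :=
    hlogx.trans (Real.log_le_log hx0 (by linarith))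
  obtain ⟨j, hj1, hj2⟩ := exists_tile_index h x (x + y) (by linarith) hh
  have h1 := tile_lower h x (2 * x) l hx hl hh hR j (by linarith)
  have h2 := rpi_mono hj1.le
  have h3 := tile_ge_self h x hh j
  have h4 : tile h x (j + 1) = tile h x j + h (tile h x j) := rfl
  have h5 := hH _ h3 (by linarith)
  have h6 : y - H ≤ tile h x j - x := by rw [h4] at hj2; linarith
  have h7 : l * ((y - H) / Real.log (2 * x)) ≤ rpi (x + y) - rpi x := by
    calc l * ((y - H) / Real.log (2 * x)) ≤ l * ((tile h x j - x) / Real.log (2 * x)) := by gcongr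
      _ ≤ _ := h1
      _ ≤ _ := by linarith
  unfold Rr
  rw [le_div_iff₀ (by positivity)]
  calc l * (1 - H / y) * (Real.log x / Real.log (2 * x)) * (y / Real.log x)
      = l * ((y - H) / Real.log (2 * x)) := by field_simp
    _ ≤ _ := h7

end Pool.Agent.Lib.H62
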